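import Mathlib

/-!
Ehresmann monoids and the free Ehresmann monoid `FE X` (terms modulo the equational theory).
-/

namespace Pool.Agent.R664.Ehr

universe u v

/-- An Ehresmann monoid, with the identities of the problem file. -/
class Ehresmann (S : Type u) extends Monoid S where
  plus : S → S
  star : S → S
  plus_mul_self : ∀ x : S, plus x * x = x
  plus_comm : ∀ x y : S, plus x * plus y = plus y * plus x
  plus_plus_mul : ∀ x y : S, plus (plus x * y) = plus x * plus y
  plus_mul_plus : ∀ x y : S, plus (x * y) = plus (x * plus y)
  mul_star_self : ∀ x : S, x * star x = x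
  star_comm : ∀ x y : S, star x * star y = star y * star x
  star_mul_star : ∀ x y : S, star (x * star y) = star x * star y
  star_star_mul : ∀ x y : S, star (x * y) = star (star x * y)
  star_plus : ∀ x : S, star (plus x) = plus x
  plus_star : ∀ x : S, plus (star x) = star x

export Ehresmann (plus star)

/-- Terms in the signature `(·, 1, ⁺, *)` over the variables `X`. -/
inductive Term (X : Type u) : Type u
  | var : X → Term X
  | one : Term X
  | mul : Term X → Term X → Term X
  | plus : Term X → Term X
  | star : Term X → Term X

/-- The smallest congruence on terms containing the identities of Ehresmann monoids. -/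
inductive Eqv {X : Type u} : Term X → Term X → Prop
  | refl (s : Term X) : Eqv s s
  | symm {s t : Term X} : Eqv s t → Eqv t s
  | trans {s t r : Term X} : Eqv s t → Eqv t r → Eqv s r
  | mul_congr {s s' t t' : Term X} : Eqv s s' → Eqv t t' → Eqv (.mul s t) (.mul s' t')
  | plus_congr {s s' : Term X} : Eqv s s' → Eqv (.plus s) (.plus s')
  | star_congr {s s' : Term X} : Eqv s s' → Eqv (.star s) (.star s')
  | mul_assoc (s t r : Term X) : Eqv (.mul (.mul s t) r) (.mul s (.mul t r))
  | one_mul (s : Term X) : Eqv (.mul .one s) s
  | mul_one (s : Term X) : Eqv (.mul s .one) s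
  | plus_mul_self (x : Term X) : Eqv (.mul (.plus x) x) x
  | plus_comm (x y : Term X) : Eqv (.mul (.plus x) (.plus y)) (.mul (.plus y) (.plus x))
  | plus_plus_mul (x y : Term X) : Eqv (.plus (.mul (.plus x) y)) (.mul (.plus x) (.plus y))
  | plus_mul_plus (x y : Term X) : Eqv (.plus (.mul x y)) (.plus (.mul x (.plus y)))
  | mul_star_self (x : Term X) : Eqv (.mul x (.star x)) x
  | star_comm (x y : Term X) : Eqv (.mul (.star x) (.star y)) (.mul (.star y) (.star x))
  | star_mul_star (x y : Term X) : Eqv (.star (.mul x (.star y))) (.mul (.star x) (.star y))
  | star_star_mul (x y : Term X) : Eqv (.star (.mul x y)) (.star (.mul (.star x) y))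
  | star_plus (x : Term X) : Eqv (.star (.plus x)) (.plus x)
  | plus_star (x : Term X) : Eqv (.plus (.star x)) (.star x)

instance termSetoid (X : Type u) : Setoid (Term X) where
  r := Eqv
  iseqv := ⟨Eqv.refl, Eqv.symm, Eqv.trans⟩

/-- The free Ehresmann monoid on `X`. -/
def FE (X : Type u) : Type u := Quotient (termSetoid X)

namespace FE

variable {X : Type u}

/-- The class of a term. -/
def mk (s : Term X) : FE X := Quotient.mk (termSetoid X) s

/-- The generators. -/
def gen (x : X) : FE X := mk (.var x)

instance : Ehresmann (FE X) where
  mul a b := Quotient.liftOn₂ a b (fun s t => mk (.mul s t))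
    (fun _ _ _ _ h1 h2 => Quotient.sound (Eqv.mul_congr h1 h2))
  one := mk .one
  plus a := Quotient.liftOn a (fun s => mk (.plus s))
    (fun _ _ h => Quotient.sound (Eqv.plus_congr h))
  star a := Quotient.liftOn a (fun s => mk (.star s))
    (fun _ _ h => Quotient.sound (Eqv.star_congr h))
  mul_assoc a b c := by
    induction a using Quotient.inductionOn
    induction b using Quotient.inductionOn
    induction c using Quotient.inductionOn
    exact Quotient.sound (Eqv.mul_assoc _ _ _)
  one_mul a := by
    induction a using Quotient.inductionOn
    exact Quotient.sound (Eqv.one_mul _)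
  mul_one a := by
    induction a using Quotient.inductionOn
    exact Quotient.sound (Eqv.mul_one _)
  plus_mul_self a := by
    induction a using Quotient.inductionOn
    exact Quotient.sound (Eqv.plus_mul_self _)
  plus_comm a b := by
    induction a using Quotient.inductionOn
    induction b using Quotient.inductionOn
    exact Quotient.sound (Eqv.plus_comm _ _)
  plus_plus_mul a b := by
    induction a using Quotient.inductionOn
    induction b using Quotient.inductionOn
    exact Quotient.sound (Eqv.plus_plus_mul _ _)
  plus_mul_plus a b := by
    induction a using Quotient.inductionOn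
    induction b using Quotient.inductionOn
    exact Quotient.sound (Eqv.plus_mul_plus _ _)
  mul_star_self a := by
    induction a using Quotient.inductionOn
    exact Quotient.sound (Eqv.mul_star_self _)
  star_comm a b := by
    induction a using Quotient.inductionOn
    induction b using Quotient.inductionOn
    exact Quotient.sound (Eqv.star_comm _ _)
  star_mul_star a b := by
    induction a using Quotient.inductionOn
    induction b using Quotient.inductionOn
    exact Quotient.sound (Eqv.star_mul_star _ _)
  star_star_mul a b := by
    induction a using Quotient.inductionOn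
    induction b using Quotient.inductionOn
    exact Quotient.sound (Eqv.star_star_mul _ _)
  star_plus a := by
    induction a using Quotient.inductionOn
    exact Quotient.sound (Eqv.star_plus _)
  plus_star a := by
    induction a using Quotient.inductionOn
    exact Quotient.sound (Eqv.plus_star _)

theorem mk_mul (s t : Term X) : mk (.mul s t) = mk s * mk t := rfl
theorem mk_one : mk (.one : Term X) = 1 := rfl
theorem mk_plus (s : Term X) : mk (.plus s) = plus (mk s) := rfl
theorem mk_star (s : Term X) : mk (.star s) = star (mk s) := rfl

end FE

/-- Evaluation of a term in an Ehresmann monoid. -/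
def evalTerm {X : Type u} {M : Type v} [Ehresmann M] (φ : X → M) : Term X → M
  | .var x => φ x
  | .one => 1
  | .mul s t => evalTerm φ s * evalTerm φ t
  | .plus s => plus (evalTerm φ s)
  | .star s => star (evalTerm φ s)

theorem evalTerm_sound {X : Type u} {M : Type v} [Ehresmann M] (φ : X → M) {s t : Term X}
    (h : Eqv s t) : evalTerm φ s = evalTerm φ t := by
  induction h with
  | refl s => rfl
  | symm _ ih => exact ih.symm
  | trans _ _ ih1 ih2 => exact ih1.trans ih2
  | mul_congr _ _ ih1 ih2 => simp only [evalTerm, ih1, ih2]
  | plus_congr _ ih => simp only [evalTerm, ih]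
  | star_congr _ ih => simp only [evalTerm, ih]
  | mul_assoc s t r => exact mul_assoc _ _ _
  | one_mul s => exact one_mul _
  | mul_one s => exact mul_one _
  | plus_mul_self x => exact Ehresmann.plus_mul_self _
  | plus_comm x y => exact Ehresmann.plus_comm _ _
  | plus_plus_mul x y => exact Ehresmann.plus_plus_mul _ _
  | plus_mul_plus x y => exact Ehresmann.plus_mul_plus _ _
  | mul_star_self x => exact Ehresmann.mul_star_self _
  | star_comm x y => exact Ehresmann.star_comm _ _
  | star_mul_star x y => exact Ehresmann.star_mul_star _ _
  | star_star_mul x y => exact Ehresmann.star_star_mul _ _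
  | star_plus x => exact Ehresmann.star_plus _
  | plus_star x => exact Ehresmann.plus_star _

/-- The homomorphism `FE X → M` extending `φ : X → M`. -/
def lift {X : Type u} {M : Type v} [Ehresmann M] (φ : X → M) : FE X → M :=
  Quotient.lift (evalTerm φ) (fun _ _ h => evalTerm_sound φ h)

section lift

variable {X : Type u} {M : Type v} [Ehresmann M] (φ : X → M)

theorem lift_mk (s : Term X) : lift φ (FE.mk s) = evalTerm φ s := rfl
theorem lift_gen (x : X) : lift φ (FE.gen x) = φ x := rfl
theorem lift_one : lift φ 1 = 1 := rfl

theorem lift_mul (a b : FE X) : lift φ (a * b) = lift φ a * lift φ b := by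
  induction a using Quotient.inductionOn
  induction b using Quotient.inductionOn
  rfl

theorem lift_plus (a : FE X) : lift φ (plus a) = plus (lift φ a) := by
  induction a using Quotient.inductionOn
  rfl

theorem lift_star (a : FE X) : lift φ (star a) = star (lift φ a) := by
  induction a using Quotient.inductionOn
  rfl

end lift

/-- Induction on `FE X`. -/
theorem FE.ind {X : Type u} {P : FE X → Prop} (hgen : ∀ x, P (FE.gen x)) (hone : P 1)
    (hmul : ∀ a b, P a → P b → P (a * b)) (hplus : ∀ a, P a → P (plus a))
    (hstar : ∀ a, P a → P (star a)) (a : FE X) : P a := by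
  induction a using Quotient.inductionOn with
  | h s =>
    induction s with
    | var x => exact hgen x
    | one => exact hone
    | mul s t ih1 ih2 => exact hmul _ _ ih1 ih2
    | plus s ih => exact hplus _ ih
    | star s ih => exact hstar _ ih

/-- `FE X` is the free Ehresmann monoid on `X`: every map `φ : X → M` into an Ehresmann monoid
extends to exactly one homomorphism of Ehresmann monoids `FE X → M`. -/
theorem FE.free {X : Type u} {M : Type v} [Ehresmann M] (φ : X → M) :
    ∃! f : FE X → M, (∀ x, f (FE.gen x) = φ x) ∧ f 1 = 1 ∧ (∀ a b, f (a * b) = f a * f b) ∧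
      (∀ a, f (plus a) = plus (f a)) ∧ (∀ a, f (star a) = star (f a)) := by
  refine ⟨lift φ, ⟨lift_gen φ, lift_one φ, lift_mul φ, lift_plus φ, lift_star φ⟩, ?_⟩
  rintro f ⟨h1, h2, h3, h4, h5⟩
  funext a
  induction a using FE.ind with
  | hgen x => rw [h1, lift_gen]
  | hone => rw [h2, lift_one]
  | hmul a b iha ihb => rw [h3, lift_mul, iha, ihb]
  | hplus a ih => rw [h4, lift_plus, ih]
  | hstar a ih => rw [h5, lift_star, ih]

/-! ### Duality -/

section op
open MulOpposite

instance opEhresmann {M : Type v} [Ehresmann M] : Ehresmann Mᵐᵒᵖ where
  plus a := op (star a.unop)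
  star a := op (plus a.unop)
  plus_mul_self a := unop_injective (by simpa using Ehresmann.mul_star_self a.unop)
  plus_comm a b := unop_injective (by simpa using Ehresmann.star_comm b.unop a.unop)
  plus_plus_mul a b := unop_injective (by
    simpa [Ehresmann.star_comm] using Ehresmann.star_mul_star b.unop a.unop)
  plus_mul_plus a b := unop_injective (by simpa using Ehresmann.star_star_mul b.unop a.unop)
  mul_star_self a := unop_injective (by simpa using Ehresmann.plus_mul_self a.unop)
  star_comm a b := unop_injective (by simpa using Ehresmann.plus_comm b.unop a.unop)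
  star_mul_star a b := unop_injective (by
    simpa [Ehresmann.plus_comm] using Ehresmann.plus_plus_mul b.unop a.unop)
  star_star_mul a b := unop_injective (by simpa using Ehresmann.plus_mul_plus b.unop a.unop)
  star_plus a := unop_injective (by simpa using Ehresmann.plus_star a.unop)
  plus_star a := unop_injective (by simpa using Ehresmann.star_plus a.unop)

theorem op_plus {M : Type v} [Ehresmann M] (a : M) : plus (op a) = op (star a) := rfl
theorem op_star {M : Type v} [Ehresmann M] (a : M) : star (op a) = op (plus a) := rfl
theorem unop_plus {M : Type v} [Ehresmann M] (a : Mᵐᵒᵖ) : (plus a).unop = star a.unop := rfl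
theorem unop_star {M : Type v} [Ehresmann M] (a : Mᵐᵒᵖ) : (star a).unop = plus a.unop := rfl

/-- The reversing anti-automorphism of `FE X`. -/
def rev {X : Type u} (a : FE X) : FE X := (lift (fun x => op (FE.gen x)) a).unop

theorem rev_mul {X : Type u} (a b : FE X) : rev (a * b) = rev b * rev a := by
  simp [rev, lift_mul]

theorem rev_rev {X : Type u} (a : FE X) : rev (rev a) = a := by
  induction a using FE.ind with
  | hgen x => rfl
  | hone => rfl
  | hmul a b iha ihb => rw [rev_mul, rev_mul, iha, ihb]
  | hplus a ih =>
    have h1 : rev (plus a) = star (rev a) := by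
      unfold rev; rw [lift_plus, unop_plus]
    have h2 : ∀ b : FE X, rev (star b) = plus (rev b) := by
      intro b; unfold rev; rw [lift_star, unop_star]
    rw [h1, h2, ih]
  | hstar a ih =>
    have h1 : ∀ a : FE X, rev (plus a) = star (rev a) := by
      intro a; unfold rev; rw [lift_plus, unop_plus]
    have h2 : ∀ b : FE X, rev (star b) = plus (rev b) := by
      intro b; unfold rev; rw [lift_star, unop_star]
    rw [h2, h1, ih]

end op

/-! ### Projections -/

section proj

variable {M : Type v} [Ehresmann M]

/-- Projections: the elements `p` with `p⁺ = p`. -/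
def IsProj (p : M) : Prop := plus p = p

theorem isProj_plus (x : M) : IsProj (plus x) := by
  have h := Ehresmann.plus_plus_mul x 1
  have h1 : plus (1 : M) = 1 := by
    have := Ehresmann.plus_mul_self (1 : M); simpa using this
  rw [mul_one, h1, mul_one] at h
  exact h

theorem plus_one : plus (1 : M) = 1 := by
  have := Ehresmann.plus_mul_self (1 : M); simpa using this

theorem star_one : star (1 : M) = 1 := by
  have := Ehresmann.mul_star_self (1 : M); simpa using this

theorem isProj_star (x : M) : IsProj (star x) := Ehresmann.plus_star x

theorem isProj_one : IsProj (1 : M) := plus_one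

theorem IsProj.star_eq {p : M} (hp : IsProj p) : star p = p := by
  have := Ehresmann.star_plus p
  rw [show plus p = p from hp] at this
  exact this

theorem IsProj.mul {p q : M} (hp : IsProj p) (hq : IsProj q) : IsProj (p * q) := by
  have := Ehresmann.plus_plus_mul p q
  rw [show plus p = p from hp, show plus q = q from hq] at this
  exact this

theorem IsProj.comm {p q : M} (hp : IsProj p) (hq : IsProj q) : p * q = q * p := by
  have := Ehresmann.plus_comm p q
  rw [show plus p = p from hp, show plus q = q from hq] at this
  exact this

theorem IsProj.idem {p : M} (hp : IsProj p) : p * p = p := by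
  have := Ehresmann.plus_mul_self p
  rw [show plus p = p from hp] at this
  exact this

theorem IsProj.plus_mul {p : M} (hp : IsProj p) (y : M) : plus (p * y) = p * plus y := by
  have := Ehresmann.plus_plus_mul p y
  rw [show plus p = p from hp] at this
  exact this

theorem IsProj.star_mul {p : M} (hp : IsProj p) (y : M) : star (y * p) = star y * p := by
  have := Ehresmann.star_mul_star y p
  rw [hp.star_eq] at this
  exact this

/-- `(x y)⁺ ≤ x⁺`. -/
theorem plus_mul_le (x y : M) : plus (x * y) * plus x = plus (x * y) := by
  have h := Ehresmann.plus_plus_mul x (x * y)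
  rw [← mul_assoc, Ehresmann.plus_mul_self] at h
  rw [Ehresmann.plus_comm, ← h]

/-- `p ≤ q` implies `(x p)⁺ ≤ (x q)⁺`, for projections `p, q`. -/
theorem plus_mono {p q : M} (hp : IsProj p) (hq : IsProj q) (h : p * q = p) (x : M) :
    plus (x * p) * plus (x * q) = plus (x * p) := by
  have h1 : x * p = x * q * p := by rw [mul_assoc, hq.comm hp, h]
  rw [h1]
  exact plus_mul_le (x * q) p

/-- The key lemma for the truth lemma. -/
theorem key_plus {e h g : M} (x : M) (he : IsProj e) (hh : IsProj h) (hg : IsProj g)
    (h1 : e * plus (x * h) = e) (h2 : h * star (e * x) * g = h * star (e * x)) :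
    e * plus (x * g) = e := by
  have hs : IsProj (star (e * x)) := isProj_star _
  have a1 : e * (x * h) = e * (x * h) * g := by
    have b1 : star (e * x * h) = star (e * x) * h := hh.star_mul _
    have b2 := Ehresmann.mul_star_self (e * x * h)
    rw [b1] at b2
    have b3 : e * x * h * (star (e * x) * h) = e * x * (h * star (e * x)) := by
      rw [hs.comm hh]
      calc e * x * h * (h * star (e * x)) = e * x * (h * h) * star (e * x) := by
            simp only [mul_assoc]
        _ = e * x * (h * star (e * x)) := by rw [hh.idem]; simp only [mul_assoc]
    rw [b3] at b2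
    calc e * (x * h) = e * x * h := by rw [mul_assoc]
      _ = e * x * (h * star (e * x)) := b2.symm
      _ = e * x * (h * star (e * x) * g) := by rw [h2]
      _ = e * x * (h * star (e * x)) * g := by simp only [mul_assoc]
      _ = e * x * h * g := by rw [b2]
      _ = e * (x * h) * g := by simp only [mul_assoc]
  have a2 : e = plus (e * (x * h)) := by
    rw [he.plus_mul, h1]
  have a3 : e * (x * h) = e * (x * g) * h := by
    rw [a1]
    calc e * (x * h) * g = e * x * (h * g) := by simp only [mul_assoc]
      _ = e * x * (g * h) := by rw [hh.comm hg]
      _ = e * (x * g) * h := by simp only [mul_assoc]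
  have a4 : plus (e * (x * g) * h) * plus (e * (x * g)) = plus (e * (x * g) * h) :=
    plus_mul_le _ _
  rw [← a3, ← a2, he.plus_mul, ← mul_assoc, he.idem] at a4
  exact a4

end proj

end Pool.Agent.R664.Ehr
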