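import Mathlib
import Pool.Agent.R664.EhrBasic

/-!
Rooted trees with edges in both directions, their satisfaction relation, and their evaluation in
an Ehresmann monoid.
-/

namespace Pool.Agent.R664.Ehr

universe u v

/-- Rooted trees, as lists of branches: a branch is a direction (`true`: the edge leaves the
root), a label, and a rooted tree. -/
inductive RT (X : Type u) : Type u
  | nil : RT X
  | cons (d : Bool) (x : X) (h : RT X) (t : RT X) : RT X

variable {X : Type u}

namespace RT

/-- `Br d x h e`: `(d, x, h)` is a branch of `e`. -/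
def Br (d : Bool) (x : X) (h : RT X) : RT X → Prop
  | .nil => False
  | .cons d' x' h' t => (d = d' ∧ x = x' ∧ h = h') ∨ Br d x h t

@[simp] theorem br_nil (d : Bool) (x : X) (h : RT X) : ¬ Br d x h .nil := fun h => h

theorem br_cons {d : Bool} {x : X} {h : RT X} {d' x' h' t} :
    Br d x h (.cons d' x' h' t) ↔ (d = d' ∧ x = x' ∧ h = h') ∨ Br d x h t := Iff.rfl

theorem br_head (d : Bool) (x : X) (h t : RT X) : Br d x h (.cons d x h t) :=
  Or.inl ⟨rfl, rfl, rfl⟩

/-- Joining two rooted trees at the root. -/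
def join : RT X → RT X → RT X
  | .nil, g => g
  | .cons d x h t, g => .cons d x h (join t g)

theorem br_join {d : Bool} {x : X} {h : RT X} {f g : RT X} :
    Br d x h (join f g) ↔ Br d x h f ∨ Br d x h g := by
  induction f with
  | nil => simp [join]
  | cons d' x' h' t _ ih => simp only [join, br_cons, ih, or_assoc]

/-- Syntactic satisfaction: `Sat f e` says that the rooted tree `f` maps homomorphically to the
tree `e`, root to root; the current root of `e` moves along the edges of `e`. -/
def Sat : RT X → RT X → Prop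
  | .nil, _ => True
  | .cons d x g f, e => (∃ h, Br d x h e ∧ Sat g (.cons (!d) x e h)) ∧ Sat f e

/-- Satisfaction of a rooted tree at a vertex of a labelled graph. -/
def sat {V : Type v} (G : X → V → V → Prop) : RT X → V → Prop
  | .nil, _ => True
  | .cons true x g f, a => (∃ b, G x a b ∧ sat G g b) ∧ sat G f a
  | .cons false x g f, a => (∃ b, G x b a ∧ sat G g b) ∧ sat G f a

/-- Bounded simulation. -/
def Sim (L : Set X) : ℕ → RT X → RT X → Prop
  | _, .nil, _ => True
  | 0, .cons _ _ _ _, _ => True
  | n + 1, .cons d x h t, e => (x ∈ L → ∃ h', Br d x h' e ∧ Sim L n h h') ∧ Sim L (n + 1) t e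

theorem sim_nil (L : Set X) (n : ℕ) (e : RT X) : Sim L n .nil e := by
  cases n <;> simp [Sim]

theorem sim_zero (L : Set X) (e e' : RT X) : Sim L 0 e e' := by
  cases e <;> simp [Sim]

theorem sim_succ {L : Set X} {n : ℕ} {e e' : RT X} :
    Sim L (n + 1) e e' ↔
      ∀ d x h, Br d x h e → x ∈ L → ∃ h', Br d x h' e' ∧ Sim L n h h' := by
  induction e with
  | nil => simp [Sim]
  | cons d x h t _ ih =>
    simp only [Sim, br_cons, ih]
    constructor
    · rintro ⟨h1, h2⟩ d' x' k (⟨rfl, rfl, rfl⟩ | hk) hx
      · exact h1 hx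
      · exact h2 _ _ _ hk hx
    · intro H
      exact ⟨fun hx => H _ _ _ (Or.inl ⟨rfl, rfl, rfl⟩) hx,
        fun d' x' k hk hx => H _ _ _ (Or.inr hk) hx⟩

theorem sim_anti {L : Set X} {n : ℕ} : ∀ {m : ℕ} {e e' : RT X}, m ≤ n → Sim L n e e' →
    Sim L m e e' := by
  induction n with
  | zero =>
    intro m e e' hm h
    obtain rfl : m = 0 := by omega
    exact h
  | succ n ih =>
    intro m e e' hm h
    cases m with
    | zero => exact sim_zero _ _ _
    | succ m =>
      rw [sim_succ] at h ⊢
      intro d x k hk hx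
      obtain ⟨h', h1, h2⟩ := h d x k hk hx
      exact ⟨h', h1, ih (by omega) h2⟩

theorem sim_refl (L : Set X) (n : ℕ) : ∀ e : RT X, Sim L n e e := by
  induction n with
  | zero => intro e; exact sim_zero _ _ _
  | succ n ih =>
    intro e
    rw [sim_succ]
    intro d x h hh _
    exact ⟨h, hh, ih h⟩

theorem sim_incl {L : Set X} {n : ℕ} {e e' : RT X} (H : ∀ d x h, Br d x h e → Br d x h e') :
    Sim L n e e' := by
  cases n with
  | zero => exact sim_zero _ _ _
  | succ n =>
    rw [sim_succ]
    intro d x h hh _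
    exact ⟨h, H _ _ _ hh, sim_refl _ _ _⟩

theorem sim_cons {L : Set X} {n : ℕ} {d : Bool} {x : X} {h h' t t' : RT X}
    (H : Sim L n h h') (T : Sim L n t t') : Sim L n (.cons d x h t) (.cons d x h' t') := by
  cases n with
  | zero => exact sim_zero _ _ _
  | succ n =>
    rw [sim_succ] at T ⊢
    rintro d' x' k (⟨rfl, rfl, rfl⟩ | hk) hx
    · exact ⟨h', br_head _ _ _ _, sim_anti (Nat.le_succ n) H⟩
    · obtain ⟨k', h1, h2⟩ := T _ _ _ hk hx
      exact ⟨k', Or.inr h1, h2⟩

theorem sim_join {L : Set X} {n : ℕ} {a a' b b' : RT X}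
    (H : Sim L n a a') (T : Sim L n b b') : Sim L n (join a b) (join a' b') := by
  cases n with
  | zero => exact sim_zero _ _ _
  | succ n =>
    rw [sim_succ] at H T ⊢
    intro d x k hk hx
    rcases br_join.1 hk with hk | hk
    · obtain ⟨k', h1, h2⟩ := H _ _ _ hk hx
      exact ⟨k', br_join.2 (Or.inl h1), h2⟩
    · obtain ⟨k', h1, h2⟩ := T _ _ _ hk hx
      exact ⟨k', br_join.2 (Or.inr h1), h2⟩

/-- Depth of a rooted tree. -/
def depth : RT X → ℕ
  | .nil => 0
  | .cons _ _ g f => max (depth g + 1) (depth f)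

/-- All labels are in `L`. -/
def Lab (L : Set X) : RT X → Prop
  | .nil => True
  | .cons _ x g f => x ∈ L ∧ Lab L g ∧ Lab L f

theorem lab_univ (f : RT X) : Lab Set.univ f := by
  induction f with
  | nil => trivial
  | cons d x g f ih1 ih2 => exact ⟨trivial, ih1, ih2⟩

theorem lab_mono {L L' : Set X} (hL : L ⊆ L') {f : RT X} (h : Lab L f) : Lab L' f := by
  induction f with
  | nil => trivial
  | cons d x g f ih1 ih2 => exact ⟨hL h.1, ih1 h.2.1, ih2 h.2.2⟩

theorem Sat_mono {L : Set X} (f : RT X) : ∀ {n : ℕ} {e e' : RT X}, depth f ≤ n → Lab L f →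
    Sim L n e e' → Sat f e → Sat f e' := by
  induction f with
  | nil => intro n e e' _ _ _ _; trivial
  | cons d x g f ih1 ih2 =>
    intro n e e' hn hL hs he
    obtain ⟨⟨h, hb, hg⟩, hf⟩ := he
    have hn1 : depth g + 1 ≤ n := le_trans (le_max_left _ _) hn
    have hn2 : depth f ≤ n := le_trans (le_max_right _ _) hn
    refine ⟨?_, ih2 hn2 hL.2.2 hs hf⟩
    obtain ⟨m, rfl⟩ : ∃ m, n = m + 1 := ⟨n - 1, by omega⟩
    obtain ⟨h', hb', hs'⟩ := sim_succ.1 hs d x h hb hL.1
    refine ⟨h', hb', ih1 (n := m) (by omega) hL.2.1 ?_ hg⟩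
    exact sim_cons (sim_anti (Nat.le_succ m) hs) hs'

theorem Sat_incl {f e e' : RT X} (H : ∀ d x h, Br d x h e → Br d x h e') (h : Sat f e) :
    Sat f e' :=
  Sat_mono f le_rfl (lab_univ f) (sim_incl H) h

theorem Sat_of_br (f : RT X) : ∀ {e : RT X}, (∀ d x h, Br d x h f → Br d x h e) → Sat f e := by
  induction f with
  | nil => intro e _; trivial
  | cons d x g f ih1 ih2 =>
    intro e H
    refine ⟨⟨g, H _ _ _ (br_head _ _ _ _), ih1 ?_⟩, ih2 ?_⟩
    · intro d' x' h' hb
      exact Or.inr hb
    · intro d' x' h' hb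
      exact H _ _ _ (Or.inr hb)

/-- The canonical graph on rooted trees. -/
def K (x : X) (e e' : RT X) : Prop :=
  (∃ h, Br true x h e ∧ e' = .cons false x e h) ∨ (∃ h, Br false x h e' ∧ e = .cons true x e' h)

/-- Satisfaction in the canonical graph is `Sat`. -/
theorem sat_K (f : RT X) : ∀ e : RT X, sat K f e ↔ Sat f e := by
  induction f with
  | nil => intro e; simp [sat, Sat]
  | cons d x g f ih1 ih2 =>
    intro e
    cases d with
    | true =>
      simp only [sat, Sat, ih2]
      refine and_congr_left fun _ => ?_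
      constructor
      · rintro ⟨b, hb | hb, hg⟩
        · obtain ⟨h, h1, rfl⟩ := hb
          exact ⟨h, h1, (ih1 _).1 hg⟩
        · obtain ⟨h, h1, rfl⟩ := hb
          refine ⟨b, br_head _ _ _ _, ?_⟩
          refine Sat_incl ?_ ((ih1 _).1 hg)
          intro d' x' h' hb
          exact Or.inr hb
      · rintro ⟨h, h1, h2⟩
        exact ⟨_, Or.inl ⟨h, h1, rfl⟩, (ih1 _).2 h2⟩
    | false =>
      simp only [sat, Sat, ih2]
      refine and_congr_left fun _ => ?_
      constructor
      · rintro ⟨b, hb | hb, hg⟩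
        · obtain ⟨h, h1, rfl⟩ := hb
          refine ⟨b, br_head _ _ _ _, ?_⟩
          refine Sat_incl ?_ ((ih1 _).1 hg)
          intro d' x' h' hb
          exact Or.inr hb
        · obtain ⟨h, h1, rfl⟩ := hb
          exact ⟨h, h1, (ih1 _).1 hg⟩
      · rintro ⟨h, h1, h2⟩
        exact ⟨_, Or.inr ⟨h, h1, rfl⟩, (ih1 _).2 h2⟩

/-- Evaluation of a branch. -/
def evb {M : Type v} [Ehresmann M] (φ : X → M) (d : Bool) (x : X) (m : M) : M :=
  match d with
  | true => plus (φ x * m)
  | false => star (m * φ x)

/-- Evaluation of a rooted tree: a projection. -/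
def ev {M : Type v} [Ehresmann M] (φ : X → M) : RT X → M
  | .nil => 1
  | .cons d x g f => evb φ d x (ev φ g) * ev φ f

section ev

variable {M : Type v} [Ehresmann M] (φ : X → M)

theorem isProj_evb (d : Bool) (x : X) (m : M) : IsProj (evb φ d x m) := by
  cases d with
  | true => exact isProj_plus _
  | false => exact isProj_star _

theorem isProj_ev (f : RT X) : IsProj (ev φ f) := by
  induction f with
  | nil => exact isProj_one
  | cons d x g f _ ih2 => exact (isProj_evb φ d x _).mul ih2

theorem ev_join (f g : RT X) : ev φ (join f g) = ev φ f * ev φ g := by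
  induction f with
  | nil => simp [join, ev]
  | cons d x h t _ ih => simp [join, ev, ih, mul_assoc]

/-- A rooted tree is below each of its branches. -/
theorem ev_le_br {d : Bool} {x : X} {h e : RT X} (hb : Br d x h e) :
    ev φ e * evb φ d x (ev φ h) = ev φ e := by
  induction e with
  | nil => exact absurd hb (br_nil _ _ _)
  | cons d' x' h' t _ ih =>
    rcases hb with ⟨rfl, rfl, rfl⟩ | hb
    · have h1 := isProj_evb φ d x (ev φ h)
      have h2 := isProj_ev φ t
      simp only [ev]
      rw [mul_assoc, h2.comm h1, ← mul_assoc, h1.idem]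
    · simp only [ev]
      rw [mul_assoc, ih hb]

/-- A projection below all branches is below the tree. -/
theorem le_ev {p : M} {e : RT X} (H : ∀ d x h, Br d x h e → p * evb φ d x (ev φ h) = p) :
    p * ev φ e = p := by
  induction e with
  | nil => simp [ev]
  | cons d x h t _ ih =>
    simp only [ev]
    rw [← mul_assoc, H _ _ _ (br_head _ _ _ _), ih]
    intro d' x' h' hb
    exact H _ _ _ (Or.inr hb)

end ev

/-- Dual of `key_plus`. -/
theorem key_star {M : Type v} [Ehresmann M] {e h g : M} (x : M) (he : IsProj e) (hh : IsProj h)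
    (hg : IsProj g) (h1 : e * star (h * x) = e) (h2 : h * plus (x * e) * g = h * plus (x * e)) :
    e * star (g * x) = e := by
  have hop : ∀ {p : M}, IsProj p → IsProj (MulOpposite.op p) := by
    intro p hp
    show plus (MulOpposite.op p) = MulOpposite.op p
    rw [op_plus, hp.star_eq]
  have h3 := key_plus (M := Mᵐᵒᵖ) (e := MulOpposite.op e) (h := MulOpposite.op h)
    (g := MulOpposite.op g) (MulOpposite.op x) (hop he) (hop hh) (hop hg)
  simp only [← MulOpposite.op_mul, op_plus, op_star, MulOpposite.op_inj] at h3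
  have hs : IsProj (star (h * x)) := isProj_star _
  have hp : IsProj (plus (x * e)) := isProj_plus _
  have hs2 : IsProj (star (g * x)) := isProj_star _
  rw [hs2.comm he] at h3
  apply h3
  · rw [hs.comm he]; exact h1
  · rw [hp.comm hh, hg.comm (hh.mul hp)]; exact h2

theorem key_evb {M : Type v} [Ehresmann M] (φ : X → M) {e h g : M} (d : Bool) (x : X)
    (he : IsProj e) (hh : IsProj h)
    (hg : IsProj g) (h1 : e * evb φ d x h = e) (h2 : evb φ (!d) x e * h * g = evb φ (!d) x e * h) :
    e * evb φ d x g = e := by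
  cases d with
  | true =>
    apply key_plus (φ x) he hh hg h1
    have hs : IsProj (star (e * φ x)) := isProj_star _
    have h3 : star (e * φ x) * h * g = star (e * φ x) * h := h2
    rw [hh.comm hs]; exact h3
  | false =>
    apply key_star (φ x) he hh hg h1
    have hs : IsProj (plus (φ x * e)) := isProj_plus _
    have h3 : plus (φ x * e) * h * g = plus (φ x * e) * h := h2
    rw [hh.comm hs]; exact h3

/-- Completeness for rooted trees. -/
theorem ev_le_of_Sat {M : Type v} [Ehresmann M] (φ : X → M) (f : RT X) :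
    ∀ e : RT X, Sat f e → ev φ e * ev φ f = ev φ e := by
  induction f with
  | nil => intro e _; simp [ev]
  | cons d x g f ih1 ih2 =>
    intro e he
    obtain ⟨⟨h, hb, hg⟩, hf⟩ := he
    have a1 := ev_le_br φ hb
    have a2 := ih1 _ hg
    simp only [ev] at a2 ⊢
    have a3 := key_evb φ d x (isProj_ev φ e) (isProj_ev φ h) (isProj_ev φ g) a1 a2
    rw [← mul_assoc, a3, ih2 e hf]

end RT

end Pool.Agent.R664.Ehr
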