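import Mathlib
import Pool.Agent.R664.EhrTree

/-!
Birooted trees (normal forms), the path-set model, soundness and completeness.
-/

namespace Pool.Agent.R664.Ehr

universe u v

variable {X : Type u}

/-- Birooted trees, given by the trunk `f₀ x₁ f₁ ⋯ xₙ fₙ`. -/
inductive Tr (X : Type u) : Type u
  | nil (f : RT X) : Tr X
  | cons (f : RT X) (x : X) (r : Tr X) : Tr X

namespace Tr

open RT

/-- Evaluation. -/
def evT {M : Type v} [Ehresmann M] (φ : X → M) : Tr X → M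
  | .nil f => ev φ f
  | .cons f x r => ev φ f * (φ x * evT φ r)

/-- Length of the trunk. -/
def len : Tr X → ℕ
  | .nil _ => 0
  | .cons _ _ r => len r + 1

/-- Concatenation. -/
def app : Tr X → Tr X → Tr X
  | .nil f, .nil g => .nil (join f g)
  | .nil f, .cons g y s => .cons (join f g) y s
  | .cons f x r, s => .cons f x (app r s)

theorem evT_app {M : Type v} [Ehresmann M] (φ : X → M) (r s : Tr X) :
    evT φ (app r s) = evT φ r * evT φ s := by
  induction r with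
  | nil f =>
    cases s with
    | nil g => simp [app, evT, ev_join]
    | cons g y s => simp [app, evT, ev_join, mul_assoc]
  | cons f x r ih => simp [app, evT, ih, mul_assoc]

theorem len_app (r s : Tr X) : len (app r s) = len r + len s := by
  induction r with
  | nil f => cases s <;> simp [app, len]
  | cons f x r ih => simp only [app, len, ih]; omega

/-- The tree for `t⁺`. -/
def rplus : Tr X → RT X
  | .nil f => f
  | .cons f x r => .cons true x (rplus r) f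

theorem ev_rplus {M : Type v} [Ehresmann M] (φ : X → M) (t : Tr X) :
    ev φ (rplus t) = plus (evT φ t) := by
  induction t with
  | nil f => exact (isProj_ev φ f).symm
  | cons f x r ih =>
    simp only [rplus, ev, evT, evb, ih]
    rw [(isProj_ev φ f).plus_mul, ← Ehresmann.plus_mul_plus]
    exact (isProj_plus _).comm (isProj_ev φ f)

/-- The tree for `(c t)*`. -/
def rstar : RT X → Tr X → RT X
  | c, .nil f => join c f
  | c, .cons f x r => rstar (.cons false x (join c f) .nil) r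

theorem ev_rstar {M : Type v} [Ehresmann M] (φ : X → M) (t : Tr X) : ∀ c : RT X,
    ev φ (rstar c t) = star (ev φ c * evT φ t) := by
  induction t with
  | nil f =>
    intro c
    simp only [rstar, evT, ev_join]
    exact (((isProj_ev φ c).mul (isProj_ev φ f)).star_eq).symm
  | cons f x r ih =>
    intro c
    simp only [rstar, ih, ev, evT, evb, ev_join, mul_one]
    rw [← Ehresmann.star_star_mul]
    simp only [mul_assoc]

/-- Every element of `FE X` has a normal form. -/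
theorem exists_evT (z : FE X) : ∃ t : Tr X, evT FE.gen t = z := by
  induction z using FE.ind with
  | hgen x => exact ⟨.cons .nil x (.nil .nil), by simp [evT, ev]⟩
  | hone => exact ⟨.nil .nil, by simp [evT, ev]⟩
  | hmul a b iha ihb =>
    obtain ⟨s, rfl⟩ := iha
    obtain ⟨t, rfl⟩ := ihb
    exact ⟨app s t, evT_app _ _ _⟩
  | hplus a ih =>
    obtain ⟨s, rfl⟩ := ih
    exact ⟨.nil (rplus s), ev_rplus _ _⟩
  | hstar a ih =>
    obtain ⟨s, rfl⟩ := ih
    exact ⟨.nil (rstar .nil s), by simp [evT, ev_rstar, ev]⟩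

/-- `(a, l)` is a path satisfying the birooted tree. -/
def mem {V : Type v} (G : X → V → V → Prop) : Tr X → V → List (X × V) → Prop
  | .nil f, a, l => l = [] ∧ sat G f a
  | .cons f x r, a, l => sat G f a ∧ ∃ b l', l = (x, b) :: l' ∧ G x a b ∧ mem G r b l'

theorem mem_len {V : Type v} {G : X → V → V → Prop} {t : Tr X} :
    ∀ {a : V} {l : List (X × V)}, mem G t a l → l.length = len t := by
  induction t with
  | nil f => rintro a l ⟨rfl, _⟩; rfl
  | cons f x r ih =>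
    rintro a l ⟨_, b, l', rfl, _, h⟩
    simp [len, ih h]

end Tr

/-! ### The path-set model -/

/-- Sets of sequences `(a₀, [(x₁, a₁), …, (xₙ, aₙ)])`. -/
structure PS (X : Type u) (V : Type v) where
  s : Set (V × List (X × V))

namespace PS

variable {V : Type v}

/-- The endpoint of a sequence. -/
def endp : V → List (X × V) → V
  | a, [] => a
  | _, (_, b) :: l => endp b l

theorem endp_append (a : V) (l m : List (X × V)) : endp a (l ++ m) = endp (endp a l) m := by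
  induction l generalizing a with
  | nil => rfl
  | cons p l ih => obtain ⟨x, b⟩ := p; simp [endp, ih]

theorem ext' {A B : PS X V} (h : ∀ a l, (a, l) ∈ A.s ↔ (a, l) ∈ B.s) : A = B := by
  cases A; cases B
  congr 1
  ext ⟨a, l⟩
  exact h a l

instance : Mul (PS X V) where
  mul A B := ⟨{p | ∃ l m, p.2 = l ++ m ∧ (p.1, l) ∈ A.s ∧ (endp p.1 l, m) ∈ B.s}⟩

instance : One (PS X V) where
  one := ⟨{p | p.2 = []}⟩

theorem mem_mul {A B : PS X V} {a : V} {n : List (X × V)} :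
    (a, n) ∈ (A * B).s ↔ ∃ l m, n = l ++ m ∧ (a, l) ∈ A.s ∧ (endp a l, m) ∈ B.s := Iff.rfl

theorem mem_one {a : V} {n : List (X × V)} : (a, n) ∈ (1 : PS X V).s ↔ n = [] := Iff.rfl

/-- Domain. -/
def pl (A : PS X V) : PS X V := ⟨{p | p.2 = [] ∧ ∃ l, (p.1, l) ∈ A.s}⟩

/-- Range. -/
def st (A : PS X V) : PS X V := ⟨{p | p.2 = [] ∧ ∃ a l, (a, l) ∈ A.s ∧ endp a l = p.1}⟩

theorem mem_pl {A : PS X V} {a : V} {n : List (X × V)} :
    (a, n) ∈ (pl A).s ↔ n = [] ∧ ∃ l, (a, l) ∈ A.s := Iff.rfl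

theorem mem_st {A : PS X V} {a : V} {n : List (X × V)} :
    (a, n) ∈ (st A).s ↔ n = [] ∧ ∃ b l, (b, l) ∈ A.s ∧ endp b l = a := Iff.rfl

instance : Ehresmann (PS X V) where
  plus := pl
  star := st
  mul_assoc A B C := by
    apply ext'
    intro a n
    simp only [mem_mul]
    constructor
    · rintro ⟨l, m, rfl, ⟨l1, l2, rfl, h1, h2⟩, h3⟩
      refine ⟨l1, l2 ++ m, by simp, h1, l2, m, rfl, h2, ?_⟩
      rwa [endp_append] at h3
    · rintro ⟨l, m, rfl, h1, l1, l2, rfl, h2, h3⟩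
      refine ⟨l ++ l1, l2, by simp, ⟨l, l1, rfl, h1, h2⟩, ?_⟩
      rwa [endp_append]
  one_mul A := by
    apply ext'
    intro a n
    simp only [mem_mul, mem_one]
    constructor
    · rintro ⟨l, m, rfl, rfl, h⟩; exact h
    · intro h; exact ⟨[], n, rfl, rfl, h⟩
  mul_one A := by
    apply ext'
    intro a n
    simp only [mem_mul, mem_one]
    constructor
    · rintro ⟨l, m, rfl, h, rfl⟩; simpa using h
    · intro h; exact ⟨n, [], by simp, h, rfl⟩
  plus_mul_self A := by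
    apply ext'
    intro a n
    simp only [mem_mul, mem_pl]
    constructor
    · rintro ⟨l, m, rfl, ⟨rfl, _⟩, h⟩; exact h
    · intro h; exact ⟨[], n, rfl, ⟨rfl, n, h⟩, h⟩
  plus_comm A B := by
    apply ext'
    intro a n
    simp only [mem_mul, mem_pl]
    constructor
    · rintro ⟨l, m, rfl, ⟨rfl, h1⟩, rfl, h2⟩
      exact ⟨[], [], rfl, ⟨rfl, h2⟩, rfl, h1⟩
    · rintro ⟨l, m, rfl, ⟨rfl, h1⟩, rfl, h2⟩
      exact ⟨[], [], rfl, ⟨rfl, h2⟩, rfl, h1⟩
  plus_plus_mul A B := by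
    apply ext'
    intro a n
    simp only [mem_mul, mem_pl]
    constructor
    · rintro ⟨rfl, l, l1, m, rfl, ⟨rfl, h1⟩, h2⟩
      exact ⟨[], [], rfl, ⟨rfl, h1⟩, rfl, m, h2⟩
    · rintro ⟨l, m, rfl, ⟨rfl, h1⟩, rfl, k, h2⟩
      exact ⟨rfl, k, [], k, rfl, ⟨rfl, h1⟩, h2⟩
  plus_mul_plus A B := by
    apply ext'
    intro a n
    simp only [mem_mul, mem_pl]
    constructor
    · rintro ⟨rfl, l, l1, m, rfl, h1, h2⟩
      exact ⟨rfl, l1, l1, [], by simp, h1, rfl, m, h2⟩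
    · rintro ⟨rfl, l, l1, m, rfl, h1, rfl, k, h2⟩
      exact ⟨rfl, l1 ++ k, l1, k, rfl, h1, h2⟩
  mul_star_self A := by
    apply ext'
    intro a n
    simp only [mem_mul, mem_st]
    constructor
    · rintro ⟨l, m, rfl, h, rfl, _⟩; simpa using h
    · intro h; exact ⟨n, [], by simp, h, rfl, a, n, h, rfl⟩
  star_comm A B := by
    apply ext'
    intro a n
    simp only [mem_mul, mem_st]
    constructor
    · rintro ⟨l, m, rfl, ⟨rfl, h1⟩, rfl, h2⟩
      exact ⟨[], [], rfl, ⟨rfl, h2⟩, rfl, h1⟩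
    · rintro ⟨l, m, rfl, ⟨rfl, h1⟩, rfl, h2⟩
      exact ⟨[], [], rfl, ⟨rfl, h2⟩, rfl, h1⟩
  star_mul_star A B := by
    apply ext'
    intro a n
    simp only [mem_mul, mem_st]
    constructor
    · rintro ⟨rfl, b, l, ⟨l1, m, rfl, h1, rfl, b', l', h2, h3⟩, h4⟩
      simp only [List.append_nil] at h4
      exact ⟨[], [], rfl, ⟨rfl, b, l1, h1, h4⟩, rfl, b', l', h2, by rw [h3, h4]; rfl⟩
    · rintro ⟨l, m, rfl, ⟨rfl, b, k, h1, h2⟩, rfl, b', k', h3, h4⟩
      exact ⟨rfl, b, k, ⟨k, [], by simp, h1, rfl, b', k', h3, by rw [h4, h2]; rfl⟩, h2⟩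
  star_star_mul A B := by
    apply ext'
    intro a n
    simp only [mem_mul, mem_st]
    constructor
    · rintro ⟨rfl, b, l, ⟨l1, m, rfl, h1, h2⟩, h3⟩
      rw [endp_append] at h3
      exact ⟨rfl, endp b l1, m, ⟨[], m, rfl, ⟨rfl, b, l1, h1, rfl⟩, h2⟩, h3⟩
    · rintro ⟨rfl, b, l, ⟨l1, m, rfl, ⟨rfl, c, k, h1, rfl⟩, h2⟩, h3⟩
      exact ⟨rfl, c, k ++ m, ⟨k, m, rfl, h1, h2⟩, by rw [endp_append]; exact h3⟩
  star_plus A := by
    apply ext'
    intro a n
    simp only [mem_pl, mem_st]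
    constructor
    · rintro ⟨rfl, b, l, ⟨rfl, h1⟩, rfl⟩
      exact ⟨rfl, h1⟩
    · rintro ⟨rfl, h⟩
      exact ⟨rfl, a, [], ⟨rfl, h⟩, rfl⟩
  plus_star A := by
    apply ext'
    intro a n
    simp only [mem_pl, mem_st]
    constructor
    · rintro ⟨rfl, l, rfl, h⟩
      exact ⟨rfl, h⟩
    · rintro ⟨rfl, h⟩
      exact ⟨rfl, [], rfl, h⟩

theorem mem_plus {A : PS X V} {a : V} {n : List (X × V)} :
    (a, n) ∈ (plus A).s ↔ n = [] ∧ ∃ l, (a, l) ∈ A.s := Iff.rfl

theorem mem_star {A : PS X V} {a : V} {n : List (X × V)} :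
    (a, n) ∈ (star A).s ↔ n = [] ∧ ∃ b l, (b, l) ∈ A.s ∧ endp b l = a := Iff.rfl

/-- The interpretation of the letters in a graph. -/
def ι (G : X → V → V → Prop) (x : X) : PS X V := ⟨{p | ∃ b, p.2 = [(x, b)] ∧ G x p.1 b}⟩

theorem mem_ι {G : X → V → V → Prop} {x : X} {a : V} {n : List (X × V)} :
    (a, n) ∈ (ι G x).s ↔ ∃ b, n = [(x, b)] ∧ G x a b := Iff.rfl

open RT in
theorem mem_ev (G : X → V → V → Prop) (f : RT X) : ∀ (a : V) (l : List (X × V)),
    (a, l) ∈ (ev (ι G) f).s ↔ l = [] ∧ sat G f a := by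
  induction f with
  | nil => intro a l; simp [ev, sat, mem_one]
  | cons d x g f ih1 ih2 =>
    intro a l
    cases d with
    | true =>
      simp only [ev, evb, sat, mem_mul, mem_plus, mem_ι, ih1, ih2]
      constructor
      · rintro ⟨l1, m, rfl, ⟨rfl, k, k1, k2, rfl, ⟨b, rfl, h1⟩, rfl, h2⟩, rfl, h3⟩
        exact ⟨rfl, ⟨b, h1, h2⟩, h3⟩
      · rintro ⟨rfl, ⟨b, h1, h2⟩, h3⟩
        exact ⟨[], [], rfl, ⟨rfl, [(x, b)], [(x, b)], [], rfl, ⟨b, rfl, h1⟩, rfl, h2⟩, rfl, h3⟩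
    | false =>
      simp only [ev, evb, sat, mem_mul, mem_star, mem_ι, ih1, ih2]
      constructor
      · rintro ⟨l1, m, rfl, ⟨rfl, b, k, ⟨k1, k2, rfl, ⟨rfl, h1⟩, c, rfl, h2⟩, h4⟩, rfl, h3⟩
        refine ⟨rfl, ⟨b, ?_, h1⟩, h3⟩
        have : c = a := h4
        rw [← this]; exact h2
      · rintro ⟨rfl, ⟨b, h1, h2⟩, h3⟩
        exact ⟨[], [], rfl, ⟨rfl, b, [(x, a)], ⟨[], [(x, a)], rfl, ⟨rfl, h2⟩, a, rfl, h1⟩, rfl⟩,
          rfl, h3⟩

open RT Tr in
theorem mem_evT (G : X → V → V → Prop) (t : Tr X) : ∀ (a : V) (l : List (X × V)),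
    (a, l) ∈ (evT (ι G) t).s ↔ mem G t a l := by
  induction t with
  | nil f => intro a l; exact mem_ev G f a l
  | cons f x r ih =>
    intro a l
    simp only [evT, mem_mul, mem_ev, mem_ι, ih, mem]
    constructor
    · rintro ⟨l1, m, rfl, ⟨rfl, h1⟩, l2, m2, rfl, ⟨b, rfl, h2⟩, h3⟩
      exact ⟨h1, b, m2, rfl, h2, h3⟩
    · rintro ⟨h1, b, l', rfl, h2, h3⟩
      exact ⟨[], _, rfl, ⟨rfl, h1⟩, [(x, b)], l', rfl, ⟨b, rfl, h2⟩, h3⟩

end PS

end Pool.Agent.R664.Ehr
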