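import Mathlib
import Pool.Agent.R664.EhrPath

/-!
Completeness of the path-set model over the canonical graph: `FE X` embeds in it.
-/

namespace Pool.Agent.R664.Ehr

universe u v

variable {X : Type u}

namespace Tr

open RT

/-- The view of the root of `t` when `c` is attached to the root. -/
def view (c : RT X) (t : Tr X) : RT X := join c (rplus t)

/-- The further views along the trunk. -/
def vpath : RT X → Tr X → List (X × RT X)
  | _, .nil _ => []
  | c, .cons f x r =>
    (x, view (.cons false x (view c (.cons f x r)) .nil) r) ::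
      vpath (.cons false x (view c (.cons f x r)) .nil) r

theorem K_view (c : RT X) (f : RT X) (x : X) (r : Tr X) :
    K x (view c (.cons f x r)) (view (.cons false x (view c (.cons f x r)) .nil) r) := by
  refine Or.inl ⟨rplus r, ?_, rfl⟩
  exact br_join.2 (Or.inr (br_head _ _ _ _))

theorem mem_own (t : Tr X) : ∀ c : RT X, mem K t (view c t) (vpath c t) := by
  induction t with
  | nil f =>
    intro c
    exact ⟨rfl, (sat_K _ _).2 (Sat_of_br f fun d x h hb => br_join.2 (Or.inr hb))⟩
  | cons f x r ih =>
    intro c
    refine ⟨(sat_K _ _).2 (Sat_of_br f fun d y h hb => br_join.2 (Or.inr (Or.inr hb))), _, _, rfl,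
      K_view c f x r, ih _⟩

/-- The meet of two birooted trees with the same trunk. -/
def meet : Tr X → Tr X → Tr X
  | .nil f, .nil g => .nil (join f g)
  | .nil f, .cons _ _ _ => .nil f
  | .cons f _ _, .nil _ => .nil f
  | .cons f x r, .cons g _ s => .cons (join f g) x (meet r s)

theorem ev_view {M : Type v} [Ehresmann M] (φ : X → M) (c : RT X) (t : Tr X) :
    ev φ (view c t) = ev φ c * plus (evT φ t) := by
  simp only [view, ev_join, ev_rplus]

theorem complete_aux {M : Type v} [Ehresmann M] (φ : X → M) (t : Tr X) :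
    ∀ (c : RT X) (s : Tr X), mem K s (view c t) (vpath c t) →
      ev φ c * evT φ t = ev φ c * evT φ (meet t s) ∧
      plus (evT φ (meet t s)) * plus (evT φ t) = plus (evT φ (meet t s)) := by
  induction t with
  | nil f =>
    intro c s hs
    cases s with
    | nil g =>
      obtain ⟨_, hg⟩ := hs
      have h1 := ev_le_of_Sat φ g _ ((sat_K _ _).1 hg)
      have hc := isProj_ev φ c
      have hf := isProj_ev φ f
      have hgp := isProj_ev φ g
      simp only [view, rplus, ev_join] at h1
      simp only [evT, meet, ev_join]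
      constructor
      · rw [← mul_assoc, h1]
      · rw [hf.plus_mul, show plus (ev φ g) = ev φ g from hgp, show plus (ev φ f) = ev φ f from hf]
        calc ev φ f * ev φ g * ev φ f = ev φ f * (ev φ g * ev φ f) := mul_assoc _ _ _
          _ = ev φ f * (ev φ f * ev φ g) := by rw [hgp.comm hf]
          _ = ev φ f * ev φ g := by rw [← mul_assoc, hf.idem]
    | cons g y s =>
      obtain ⟨_, b, l', h1, _⟩ := hs
      simp [vpath] at h1
  | cons f x r ih =>
    intro c s hs
    cases s with
    | nil g =>
      obtain ⟨h1, _⟩ := hs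
      simp [vpath] at h1
    | cons g y s =>
      obtain ⟨hg, b, l', h1, h2, h3⟩ := hs
      simp only [vpath, List.cons.injEq, Prod.mk.injEq] at h1
      obtain ⟨⟨rfl, rfl⟩, rfl⟩ := h1
      obtain ⟨ihA, ihB⟩ := ih _ s h3
      have hEG := ev_le_of_Sat φ g _ ((sat_K _ _).1 hg)
      have hE := ev_view φ c (.cons f x r)
      have hc := isProj_ev φ c
      have hf := isProj_ev φ f
      have hgp := isProj_ev φ g
      simp only [ev, evb, mul_one] at ihA
      set E := ev φ (view c (.cons f x r)) with hEdef
      set C := ev φ c with hCdef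
      simp only [evT, meet, ev_join] at hE ⊢
      set F := ev φ f with hFdef
      set G := ev φ g with hGdef
      set R := evT φ r with hRdef
      set m := evT φ (meet r s) with hmdef
      have hQ : IsProj (plus (φ x * R)) := isProj_plus _
      have hP : IsProj (plus (φ x * m)) := isProj_plus _
      have hPQ : plus (φ x * m) * plus (φ x * R) = plus (φ x * m) := by
        have := plus_mono (isProj_plus m) (isProj_plus R) ihB (φ x)
        rwa [← Ehresmann.plus_mul_plus, ← Ehresmann.plus_mul_plus] at this
      rw [hf.plus_mul] at hE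
      have hxR : plus (φ x * R) * (φ x * R) = φ x * R := Ehresmann.plus_mul_self _
      have hxm : plus (φ x * m) * (φ x * m) = φ x * m := Ehresmann.plus_mul_self _
      have hEx : E * φ x * star (E * φ x) = E * φ x := Ehresmann.mul_star_self _
      constructor
      · have e1 : C * (F * (φ x * R)) = E * φ x * m := by
          calc C * (F * (φ x * R)) = C * (F * (plus (φ x * R) * (φ x * R))) := by rw [hxR]
            _ = C * (F * plus (φ x * R)) * (φ x * R) := by simp only [mul_assoc]
            _ = E * φ x * R := by rw [← hE, mul_assoc]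
            _ = E * φ x * star (E * φ x) * R := by rw [hEx]
            _ = E * φ x * (star (E * φ x) * R) := by simp only [mul_assoc]
            _ = E * φ x * (star (E * φ x) * m) := by rw [ihA]
            _ = E * φ x * star (E * φ x) * m := by simp only [mul_assoc]
            _ = E * φ x * m := by rw [hEx]
        have e2 : C * (F * G * (φ x * m)) = E * φ x * m := by
          calc C * (F * G * (φ x * m)) = C * (F * G * (plus (φ x * m) * (φ x * m))) := by rw [hxm]
            _ = C * (F * G * (plus (φ x * m) * plus (φ x * R) * (φ x * m))) := by rw [hPQ]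
            _ = C * (F * G * (plus (φ x * R) * plus (φ x * m) * (φ x * m))) := by
                rw [hP.comm hQ]
            _ = C * (F * (G * plus (φ x * R)) * (plus (φ x * m) * (φ x * m))) := by
                simp only [mul_assoc]
            _ = C * (F * (plus (φ x * R) * G) * (φ x * m)) := by rw [hgp.comm hQ, hxm]
            _ = C * (F * plus (φ x * R)) * G * (φ x * m) := by simp only [mul_assoc]
            _ = E * φ x * m := by rw [← hE, hEG, mul_assoc]
        rw [e1, e2]
      · have e3 : plus (F * G * (φ x * m)) = F * G * plus (φ x * m) := (hf.mul hgp).plus_mul _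
        rw [e3, hf.plus_mul]
        have hFGP : IsProj (F * G * plus (φ x * m)) := (hf.mul hgp).mul hP
        calc F * G * plus (φ x * m) * (F * plus (φ x * R))
            = F * G * plus (φ x * m) * F * plus (φ x * R) := by simp only [mul_assoc]
          _ = F * (F * G * plus (φ x * m)) * plus (φ x * R) := by rw [hFGP.comm hf]
          _ = F * F * (G * (plus (φ x * m) * plus (φ x * R))) := by simp only [mul_assoc]
          _ = F * G * plus (φ x * m) := by rw [hf.idem, hPQ]; simp only [mul_assoc]

theorem meet_comm' {M : Type v} [Ehresmann M] (φ : X → M) (t : Tr X) :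
    ∀ (c : RT X) (s : Tr X), mem K s (view c t) (vpath c t) →
      evT φ (meet t s) = evT φ (meet s t) := by
  induction t with
  | nil f =>
    intro c s hs
    cases s with
    | nil g =>
      simp only [meet, evT, ev_join]
      exact (isProj_ev φ f).comm (isProj_ev φ g)
    | cons g y s =>
      obtain ⟨_, b, l', h1, _⟩ := hs
      simp [vpath] at h1
  | cons f x r ih =>
    intro c s hs
    cases s with
    | nil g =>
      obtain ⟨h1, _⟩ := hs
      simp [vpath] at h1
    | cons g y s =>
      obtain ⟨hg, b, l', h1, h2, h3⟩ := hs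
      simp only [vpath, List.cons.injEq, Prod.mk.injEq] at h1
      obtain ⟨⟨rfl, rfl⟩, rfl⟩ := h1
      simp only [meet, evT, ev_join, ih _ s h3, (isProj_ev φ f).comm (isProj_ev φ g)]

/-- Completeness. -/
theorem complete {M : Type v} [Ehresmann M] (φ : X → M) {t s : Tr X}
    (h1 : mem K s (view .nil t) (vpath .nil t)) (h2 : mem K t (view .nil s) (vpath .nil s)) :
    evT φ t = evT φ s := by
  have a1 := (complete_aux φ t _ s h1).1
  have a2 := (complete_aux φ s _ t h2).1
  simp only [ev, one_mul] at a1 a2
  rw [a1, a2, meet_comm' φ t _ s h1]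

theorem lift_ev {M : Type v} [Ehresmann M] (φ : X → M) (f : RT X) :
    lift φ (ev FE.gen f) = ev φ f := by
  induction f with
  | nil => rfl
  | cons d x g f ih1 ih2 =>
    cases d <;> simp only [ev, evb, lift_mul, lift_plus, lift_star, lift_gen, ih1, ih2]

theorem lift_evT {M : Type v} [Ehresmann M] (φ : X → M) (t : Tr X) :
    lift φ (evT FE.gen t) = evT φ t := by
  induction t with
  | nil f => exact lift_ev φ f
  | cons f x r ih => simp only [evT, lift_mul, lift_gen, lift_ev, ih]

end Tr

/-- The interpretation of `FE X` by sets of paths in the canonical graph. -/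
def Φ (z : FE X) : Set (RT X × List (X × RT X)) := (lift (PS.ι RT.K) z).s

theorem mem_Φ_evT (t : Tr X) (a : RT X) (l : List (X × RT X)) :
    (a, l) ∈ Φ (Tr.evT FE.gen t) ↔ Tr.mem RT.K t a l := by
  unfold Φ
  rw [Tr.lift_evT]
  exact PS.mem_evT _ _ _ _

theorem Φ_inj {y z : FE X} (h : Φ y = Φ z) : y = z := by
  obtain ⟨t, rfl⟩ := Tr.exists_evT y
  obtain ⟨s, rfl⟩ := Tr.exists_evT z
  apply Tr.complete
  · rw [← mem_Φ_evT, ← h, mem_Φ_evT]; exact Tr.mem_own t _
  · rw [← mem_Φ_evT, h, mem_Φ_evT]; exact Tr.mem_own s _

theorem mem_Φ_mul {y z : FE X} {a : RT X} {n : List (X × RT X)} :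
    (a, n) ∈ Φ (y * z) ↔ ∃ l m, n = l ++ m ∧ (a, l) ∈ Φ y ∧ (PS.endp a l, m) ∈ Φ z := by
  unfold Φ
  rw [lift_mul]
  exact PS.mem_mul

theorem mem_Φ_plus {y : FE X} {a : RT X} {n : List (X × RT X)} :
    (a, n) ∈ Φ (plus y) ↔ n = [] ∧ ∃ l, (a, l) ∈ Φ y := by
  unfold Φ
  rw [lift_plus]
  exact PS.mem_plus

theorem mem_Φ_star {y : FE X} {a : RT X} {n : List (X × RT X)} :
    (a, n) ∈ Φ (star y) ↔ n = [] ∧ ∃ b l, (b, l) ∈ Φ y ∧ PS.endp b l = a := by
  unfold Φ
  rw [lift_star]
  exact PS.mem_star

/-- All paths of `evT t` have length `len t`. -/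
theorem length_Φ {t : Tr X} {a : RT X} {l : List (X × RT X)} (h : (a, l) ∈ Φ (Tr.evT FE.gen t)) :
    l.length = Tr.len t :=
  Tr.mem_len ((mem_Φ_evT _ _ _).1 h)

end Pool.Agent.R664.Ehr
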