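import Mathlib
import Pool.Agent.R664.EhrComplete

/-!
The two algebraic conditions: cancellation to the projection, and finite generation of the
intersections of principal right ideals.
-/

namespace Pool.Agent.R664.Ehr

universe u v

variable {X : Type u}

open Tr RT

/-! ### Cancellation -/

theorem cancel_star (a u v : FE X) (h : a * u = a * v) : star a * u = star a * v := by
  have key : ∀ u v : FE X, a * u = a * v → ∀ b n, (b, n) ∈ Φ (star a * u) →
      (b, n) ∈ Φ (star a * v) := by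
    intro u v h b n hb
    obtain ⟨t, rfl⟩ := exists_evT a
    rw [mem_Φ_mul] at hb ⊢
    obtain ⟨l, m, rfl, h1, h2⟩ := hb
    rw [mem_Φ_star] at h1
    obtain ⟨rfl, c, k, h3, h4⟩ := h1
    refine ⟨[], m, rfl, mem_Φ_star.2 ⟨rfl, c, k, h3, h4⟩, ?_⟩
    have h5 : (c, k ++ m) ∈ Φ (evT FE.gen t * u) :=
      mem_Φ_mul.2 ⟨k, m, rfl, h3, by rw [h4]; exact h2⟩
    rw [h, mem_Φ_mul] at h5
    obtain ⟨k', m', h6, h7, h8⟩ := h5
    have h9 : k.length = k'.length := by rw [length_Φ h3, length_Φ h7]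
    obtain ⟨rfl, rfl⟩ := List.append_inj h6 h9
    rw [h4] at h8
    exact h8
  apply Φ_inj
  ext ⟨b, n⟩
  exact ⟨key u v h b n, key v u h.symm b n⟩

theorem cancel_plus {β γ : Tr X} (hl : len β = len γ) (t : FE X)
    (h : evT FE.gen β * t = evT FE.gen γ * t) :
    evT FE.gen β * plus t = evT FE.gen γ * plus t := by
  have key : ∀ β γ : Tr X, len β = len γ → evT FE.gen β * t = evT FE.gen γ * t →
      ∀ b n, (b, n) ∈ Φ (evT FE.gen β * plus t) → (b, n) ∈ Φ (evT FE.gen γ * plus t) := by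
    intro β γ hl h b n hb
    rw [mem_Φ_mul] at hb ⊢
    obtain ⟨l, m, rfl, h1, h2⟩ := hb
    obtain ⟨rfl, k, h3⟩ := mem_Φ_plus.1 h2
    refine ⟨l, [], rfl, ?_, h2⟩
    have h5 : (b, l ++ k) ∈ Φ (evT FE.gen β * t) := mem_Φ_mul.2 ⟨l, k, rfl, h1, h3⟩
    rw [h, mem_Φ_mul] at h5
    obtain ⟨l', k', h6, h7, h8⟩ := h5
    have h9 : l.length = l'.length := by rw [length_Φ h1, length_Φ h7, hl]
    obtain ⟨rfl, rfl⟩ := List.append_inj h6 h9
    exact h7
  apply Φ_inj
  ext ⟨b, n⟩
  exact ⟨key β γ hl h b n, key γ β hl.symm h.symm b n⟩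

theorem replace {α β : Tr X} (hl : len α = len β) (s w : FE X)
    (h : evT FE.gen α * s = evT FE.gen β * w) :
    evT FE.gen α * s = evT FE.gen α * (star (evT FE.gen β) * w) := by
  apply Φ_inj
  ext ⟨c, n⟩
  constructor
  · intro hc
    have hc' := hc
    rw [h] at hc'
    rw [mem_Φ_mul] at hc hc' ⊢
    obtain ⟨l, m, rfl, h1, h2⟩ := hc
    obtain ⟨l', m', h6, h3, h4⟩ := hc'
    have h9 : l.length = l'.length := by rw [length_Φ h1, length_Φ h3, hl]
    obtain ⟨rfl, rfl⟩ := List.append_inj h6 h9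
    exact ⟨l, m, rfl, h1, mem_Φ_mul.2 ⟨[], m, rfl, mem_Φ_star.2 ⟨rfl, c, l, h3, rfl⟩, h4⟩⟩
  · intro hc
    rw [mem_Φ_mul] at hc ⊢
    obtain ⟨l, m, rfl, h1, h2⟩ := hc
    obtain ⟨m1, m2, rfl, h3, h4⟩ := mem_Φ_mul.1 h2
    obtain ⟨rfl, b0, k, h5, h6⟩ := mem_Φ_star.1 h3
    have h7 : (b0, k ++ m2) ∈ Φ (evT FE.gen β * w) :=
      mem_Φ_mul.2 ⟨k, m2, rfl, h5, by rw [h6]; exact h4⟩
    rw [← h, mem_Φ_mul] at h7
    obtain ⟨k', m', h8, h10, h11⟩ := h7
    have h9 : k.length = k'.length := by rw [length_Φ h5, length_Φ h10, hl]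
    obtain ⟨rfl, rfl⟩ := List.append_inj h8 h9
    rw [h6] at h11
    exact ⟨l, m2, rfl, h1, h11⟩

/-! ### The transfer to truncated trees -/

theorem sat_join {V : Type v} (G : X → V → V → Prop) (f g : RT X) (a : V) :
    sat G (join f g) a ↔ sat G f a ∧ sat G g a := by
  induction f with
  | nil => simp [join, sat]
  | cons d x h t _ ih => cases d <;> simp only [join, sat, ih, and_assoc]

theorem mem_app_nil {V : Type v} (G : X → V → V → Prop) (γ : Tr X) (τ : RT X) :
    ∀ (a : V) (l : List (X × V)),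
      mem G (app γ (.nil τ)) a l ↔ mem G γ a l ∧ sat G τ (PS.endp a l) := by
  induction γ with
  | nil g =>
    intro a l
    simp only [app, mem, sat_join]
    constructor
    · rintro ⟨rfl, h1, h2⟩; exact ⟨⟨rfl, h1⟩, h2⟩
    · rintro ⟨⟨rfl, h1⟩, h2⟩; exact ⟨rfl, h1, h2⟩
  | cons g x r ih =>
    intro a l
    simp only [app, mem]
    constructor
    · rintro ⟨h1, b, l', rfl, h2, h3⟩
      obtain ⟨h4, h5⟩ := (ih b l').1 h3
      exact ⟨⟨h1, b, l', rfl, h2, h4⟩, h5⟩
    · rintro ⟨⟨h1, b, l', rfl, h2, h4⟩, h5⟩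
      exact ⟨h1, b, l', rfl, h2, (ih b l').2 ⟨h4, h5⟩⟩

/-- All trees have depth at most `n` and labels in `L`. -/
def Good (L : Set X) (n : ℕ) : Tr X → Prop
  | .nil f => depth f ≤ n ∧ Lab L f
  | .cons f _ r => (depth f ≤ n ∧ Lab L f) ∧ Good L n r

theorem sim_rplus {L : Set X} {n : ℕ} {τ τ' : RT X} (hτ : Sim L n τ τ') (β : Tr X) :
    Sim L n (rplus (app β (.nil τ))) (rplus (app β (.nil τ'))) := by
  induction β with
  | nil f => exact sim_join (sim_refl _ _ _) hτ
  | cons f x r ih => exact sim_cons ih (sim_refl _ _ _)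

theorem transfer {L : Set X} {n : ℕ} {τ τ' : RT X} (hτ : Sim L n τ τ') (β : Tr X) :
    ∀ (γ : Tr X) (c c' : RT X), Good L n γ → Sim L n c c' →
      mem K γ (view c (app β (.nil τ))) (vpath c (app β (.nil τ))) →
      mem K γ (view c' (app β (.nil τ'))) (vpath c' (app β (.nil τ'))) := by
  induction β with
  | nil f =>
    intro γ c c' hγ hc h
    cases γ with
    | nil g =>
      obtain ⟨_, hg⟩ := h
      exact ⟨rfl, (sat_K _ _).2 (Sat_mono g hγ.1 hγ.2 (sim_join hc (sim_rplus hτ (.nil f)))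
        ((sat_K _ _).1 hg))⟩
    | cons g y s =>
      obtain ⟨_, b, l', h1, _⟩ := h
      simp [app, vpath] at h1
  | cons f x r ih =>
    intro γ c c' hγ hc h
    cases γ with
    | nil g =>
      obtain ⟨h1, _⟩ := h
      simp [app, vpath] at h1
    | cons g y s =>
      obtain ⟨hg, b, l', h1, h2, h3⟩ := h
      simp only [app, vpath, List.cons.injEq, Prod.mk.injEq] at h1
      obtain ⟨⟨rfl, rfl⟩, rfl⟩ := h1
      have hv := sim_join hc (sim_rplus hτ (.cons f x r))
      refine ⟨(sat_K _ _).2 (Sat_mono g hγ.1.1 hγ.1.2 hv ((sat_K _ _).1 hg)), _, _, rfl,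
        K_view _ _ _ _, ?_⟩
      exact ih s _ _ hγ.2 (sim_cons hv (sim_nil _ _ _)) h3

theorem key_T {L : Set X} {n : ℕ} {τ τ' : RT X} (hτ : Sim L n τ τ') {β γ : Tr X}
    (hβ : Good L n β) (hγ : Good L n γ)
    (h : evT FE.gen (app β (.nil τ)) = evT FE.gen (app γ (.nil τ))) :
    evT FE.gen (app β (.nil τ')) = evT FE.gen (app γ (.nil τ')) := by
  have key : ∀ β γ : Tr X, Good L n γ →
      evT FE.gen (app β (.nil τ)) = evT FE.gen (app γ (.nil τ)) →
      mem K (app γ (.nil τ')) (view .nil (app β (.nil τ'))) (vpath .nil (app β (.nil τ'))) := by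
    intro β γ hγ h
    rw [mem_app_nil]
    refine ⟨transfer hτ β γ _ _ hγ (sim_nil _ _ _) ?_, ?_⟩
    · have h1 := mem_own (app β (.nil τ)) .nil
      rw [← mem_Φ_evT, h, mem_Φ_evT, mem_app_nil] at h1
      exact h1.1
    · have h1 := mem_own (app β (.nil τ')) .nil
      rw [mem_app_nil] at h1
      exact h1.2
  exact complete _ (key β γ hγ h) (key γ β hβ h.symm)

/-! ### Truncation -/

/-- A rooted tree from a list of branches. -/
def ofList : List (Bool × X × RT X) → RT X
  | [] => .nil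
  | (d, x, h) :: l => .cons d x h (ofList l)

theorem br_ofList {d : Bool} {x : X} {h : RT X} {l : List (Bool × X × RT X)} :
    Br d x h (ofList l) ↔ (d, x, h) ∈ l := by
  induction l with
  | nil => simp [ofList]
  | cons p l ih =>
    obtain ⟨d', x', h'⟩ := p
    simp only [ofList, br_cons, ih, List.mem_cons, Prod.mk.injEq]

open Classical in
/-- A finite set of rooted trees containing all truncations at depth `n` with labels in `L`. -/
noncomputable def trees (L : Finset X) : ℕ → Finset (RT X)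
  | 0 => {.nil}
  | n + 1 => ((Finset.univ ×ˢ L ×ˢ trees L n).powerset).image (fun s => ofList s.toList)

open Classical in
/-- The truncation at depth `n` with labels in `L`. -/
noncomputable def tr (L : Finset X) : ℕ → RT X → RT X
  | 0, _ => .nil
  | n + 1, τ => ofList ((Finset.univ ×ˢ L ×ˢ trees L n).filter
      (fun p => ∃ h', Br p.1 p.2.1 h' τ ∧ tr L n h' = p.2.2)).toList

open Classical in
theorem trees_succ (L : Finset X) (n : ℕ) : trees L (n + 1) =
    ((Finset.univ ×ˢ L ×ˢ trees L n).powerset).image (fun s => ofList s.toList) := rfl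

open Classical in
theorem tr_succ (L : Finset X) (n : ℕ) (τ : RT X) : tr L (n + 1) τ =
    ofList ((Finset.univ ×ˢ L ×ˢ trees L n).filter
      (fun p => ∃ h', Br p.1 p.2.1 h' τ ∧ tr L n h' = p.2.2)).toList := rfl

theorem tr_mem (L : Finset X) (n : ℕ) (τ : RT X) : tr L n τ ∈ trees L n := by
  classical
  cases n with
  | zero => simp [tr, trees]
  | succ n =>
    rw [trees_succ, tr_succ]
    refine Finset.mem_image.2 ⟨_, ?_, rfl⟩
    exact Finset.mem_powerset.2 (Finset.filter_subset _ _)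

theorem br_tr {L : Finset X} {n : ℕ} {τ : RT X} {d : Bool} {x : X} {h : RT X} :
    Br d x h (tr L (n + 1) τ) ↔ x ∈ L ∧ ∃ h', Br d x h' τ ∧ tr L n h' = h := by
  classical
  rw [tr_succ, br_ofList, Finset.mem_toList, Finset.mem_filter]
  simp only [Finset.mem_product, Finset.mem_univ, true_and]
  constructor
  · rintro ⟨⟨h1, _⟩, h3⟩
    exact ⟨h1, h3⟩
  · rintro ⟨h1, h', h2, rfl⟩
    exact ⟨⟨h1, tr_mem L n h'⟩, h', h2, rfl⟩

theorem sim_tr (L : Finset X) (n : ℕ) : ∀ τ : RT X, Sim (L : Set X) n τ (tr L n τ) := by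
  induction n with
  | zero => intro τ; exact sim_zero _ _ _
  | succ n ih =>
    intro τ
    rw [sim_succ]
    intro d x h hb hx
    exact ⟨tr L n h, br_tr.2 ⟨hx, h, hb, rfl⟩, ih h⟩

theorem star_mul_le {M : Type v} [Ehresmann M] (x y : M) : star (x * y) * star y = star (x * y) := by
  have h := Ehresmann.star_mul_star (x * y) y
  rw [mul_assoc, Ehresmann.mul_star_self] at h
  exact h.symm

theorem evb_mono {M : Type v} [Ehresmann M] (φ : X → M) (d : Bool) (x : X) {p q : M}
    (hp : IsProj p) (hq : IsProj q) (h : p * q = p) :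
    evb φ d x p * evb φ d x q = evb φ d x p := by
  cases d with
  | true => exact plus_mono hp hq h _
  | false =>
    have h1 : p * φ x = p * (q * φ x) := by rw [← mul_assoc, h]
    show star (p * φ x) * star (q * φ x) = star (p * φ x)
    rw [h1]
    exact star_mul_le _ _

theorem le_tr {M : Type v} [Ehresmann M] (φ : X → M) (L : Finset X) (n : ℕ) : ∀ τ : RT X,
    ev φ τ * ev φ (tr L n τ) = ev φ τ := by
  induction n with
  | zero => intro τ; simp [tr, ev]
  | succ n ih =>
    intro τ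
    apply le_ev
    intro d x h hb
    obtain ⟨_, h', h1, rfl⟩ := br_tr.1 hb
    have h2 := ev_le_br φ h1
    have h3 := evb_mono φ d x (isProj_ev φ h') (isProj_ev φ _) (ih h')
    calc ev φ τ * evb φ d x (ev φ (tr L n h'))
        = ev φ τ * evb φ d x (ev φ h') * evb φ d x (ev φ (tr L n h')) := by rw [h2]
      _ = ev φ τ * (evb φ d x (ev φ h') * evb φ d x (ev φ (tr L n h'))) := mul_assoc _ _ _
      _ = ev φ τ := by rw [h3, h2]

/-! ### Splitting and bounds -/

theorem exists_split (t : Tr X) : ∀ n ≤ len t, ∃ t1 t2 : Tr X,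
    evT FE.gen (app t1 t2) = evT FE.gen t ∧ len t1 = n := by
  induction t with
  | nil f =>
    intro n hn
    simp only [len, Nat.le_zero] at hn
    subst hn
    exact ⟨.nil .nil, .nil f, by simp [app, join], rfl⟩
  | cons f x r ih =>
    intro n hn
    cases n with
    | zero => exact ⟨.nil .nil, .cons f x r, by simp [app, join], rfl⟩
    | succ n =>
      simp only [len] at hn
      obtain ⟨t1, t2, h1, h2⟩ := ih n (by omega)
      exact ⟨.cons f x t1, t2, by simp only [app, evT, h1], by simp [len, h2]⟩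

theorem exists_lab (f : RT X) : ∃ L : Finset X, Lab (L : Set X) f := by
  classical
  induction f with
  | nil => exact ⟨∅, trivial⟩
  | cons d x g f ih1 ih2 =>
    obtain ⟨L1, h1⟩ := ih1
    obtain ⟨L2, h2⟩ := ih2
    refine ⟨insert x (L1 ∪ L2), by simp, lab_mono ?_ h1, lab_mono ?_ h2⟩
    · intro y hy; simp at hy ⊢; tauto
    · intro y hy; simp at hy ⊢; tauto

theorem good_mono {L L' : Set X} (hL : L ⊆ L') {n m : ℕ} (hn : n ≤ m) {t : Tr X}
    (h : Good L n t) : Good L' m t := by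
  induction t with
  | nil f => exact ⟨h.1.trans hn, lab_mono hL h.2⟩
  | cons f x r ih => exact ⟨⟨h.1.1.trans hn, lab_mono hL h.1.2⟩, ih h.2⟩

theorem exists_good (t : Tr X) : ∃ (L : Finset X) (n : ℕ), Good (L : Set X) n t := by
  classical
  induction t with
  | nil f =>
    obtain ⟨L, h⟩ := exists_lab f
    exact ⟨L, depth f, le_rfl, h⟩
  | cons f x r ih =>
    obtain ⟨L1, h1⟩ := exists_lab f
    obtain ⟨L2, n, h2⟩ := ih
    refine ⟨L1 ∪ L2, max (depth f) n, ⟨le_max_left _ _, lab_mono ?_ h1⟩,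
      good_mono ?_ (le_max_right _ _) h2⟩
    · intro y hy; simp at hy ⊢; tauto
    · intro y hy; simp at hy ⊢; tauto

theorem exists_good2 (s t : Tr X) : ∃ (L : Finset X) (n : ℕ), Good (L : Set X) n s ∧
    Good (L : Set X) n t := by
  classical
  obtain ⟨L1, n1, h1⟩ := exists_good s
  obtain ⟨L2, n2, h2⟩ := exists_good t
  refine ⟨L1 ∪ L2, max n1 n2, good_mono ?_ (le_max_left _ _) h1,
    good_mono ?_ (le_max_right _ _) h2⟩
  · intro y hy; simp at hy ⊢; tauto
  · intro y hy; simp at hy ⊢; tauto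

/-! ### Intersections of principal right ideals -/

theorem howson_aux (α β : Tr X) (hl : len α ≤ len β) :
    ∃ C : Finset (FE X),
      (∀ c ∈ C, (∃ s, c = evT FE.gen α * s) ∧ ∃ t, c = evT FE.gen β * t) ∧
      ∀ s t, evT FE.gen α * s = evT FE.gen β * t → ∃ c ∈ C, ∃ w, evT FE.gen α * s = c * w := by
  classical
  obtain ⟨β1, β2, hβ, hl1⟩ := exists_split β (len α) hl
  set γ : Tr X := app α (app (.nil (rstar .nil β1)) β2) with hγ
  have hγev : evT FE.gen γ = evT FE.gen α * (star (evT FE.gen β1) * evT FE.gen β2) := by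
    rw [hγ, evT_app, evT_app]
    simp only [evT, ev_rstar, ev, one_mul]
  have hlen : len (app β1 β2) = len γ := by
    rw [hγ, len_app, len_app, len_app, hl1]
    simp only [len, zero_add]
  obtain ⟨L, n, hG1, hG2⟩ := exists_good2 (app β1 β2) γ
  refine ⟨((trees L n).image (fun g => evT FE.gen β * ev FE.gen g)).filter
    (fun c => ∃ s, c = evT FE.gen α * s), ?_, ?_⟩
  · intro c hc
    rw [Finset.mem_filter, Finset.mem_image] at hc
    obtain ⟨⟨g, _, rfl⟩, hs⟩ := hc
    exact ⟨hs, _, rfl⟩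
  · intro s t hst
    obtain ⟨θ, rfl⟩ := exists_evT t
    have hbt : evT FE.gen β * evT FE.gen θ = evT FE.gen γ * evT FE.gen θ := by
      have h1 : evT FE.gen α * s = evT FE.gen β1 * (evT FE.gen β2 * evT FE.gen θ) := by
        rw [hst, ← hβ, evT_app, mul_assoc]
      have h2 := replace hl1.symm s _ h1
      rw [← hst, h2, hγev]
      simp only [mul_assoc]
    rw [← hβ] at hbt
    have h3 := cancel_plus hlen _ hbt
    rw [← ev_rplus] at h3
    have h4 : evT FE.gen (app (app β1 β2) (.nil (rplus θ))) =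
        evT FE.gen (app γ (.nil (rplus θ))) := by
      rw [evT_app FE.gen (app β1 β2), evT_app FE.gen γ]; exact h3
    have h5 := key_T (sim_tr L n (rplus θ)) hG1 hG2 h4
    rw [evT_app FE.gen (app β1 β2), evT_app FE.gen γ, hβ] at h5
    simp only [evT] at h5
    refine ⟨evT FE.gen β * ev FE.gen (tr L n (rplus θ)), ?_, evT FE.gen θ, ?_⟩
    · rw [Finset.mem_filter, Finset.mem_image]
      refine ⟨⟨_, tr_mem _ _ _, rfl⟩, ?_⟩
      rw [h5, hγev, mul_assoc]
      exact ⟨_, rfl⟩
    · rw [hst]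
      have h6 : ev FE.gen (rplus θ) * evT FE.gen θ = evT FE.gen θ := by
        rw [ev_rplus]; exact Ehresmann.plus_mul_self _
      have h7 := le_tr (M := FE X) FE.gen L n (rplus θ)
      calc evT FE.gen β * evT FE.gen θ
          = evT FE.gen β * (ev FE.gen (rplus θ) * evT FE.gen θ) := by rw [h6]
        _ = evT FE.gen β * (ev FE.gen (rplus θ) * ev FE.gen (tr L n (rplus θ)) *
              evT FE.gen θ) := by rw [h7]
        _ = evT FE.gen β * (ev FE.gen (tr L n (rplus θ)) * ev FE.gen (rplus θ) *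
              evT FE.gen θ) := by
            rw [(isProj_ev FE.gen (rplus θ)).comm (isProj_ev FE.gen (tr L n (rplus θ)))]
        _ = evT FE.gen β * ev FE.gen (tr L n (rplus θ)) *
              (ev FE.gen (rplus θ) * evT FE.gen θ) := by simp only [mul_assoc]
        _ = evT FE.gen β * ev FE.gen (tr L n (rplus θ)) * evT FE.gen θ := by rw [h6]

/-- The intersection of two principal right ideals of `FE X` is finitely generated. -/
theorem howson (a b : FE X) :
    ∃ C : Finset (FE X), (∀ c ∈ C, (∃ s, c = a * s) ∧ ∃ t, c = b * t) ∧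
      ∀ s t, a * s = b * t → ∃ c ∈ C, ∃ w, a * s = c * w := by
  obtain ⟨α, rfl⟩ := exists_evT a
  obtain ⟨β, rfl⟩ := exists_evT b
  rcases le_total (len α) (len β) with h | h
  · exact howson_aux α β h
  · obtain ⟨C, h1, h2⟩ := howson_aux β α h
    refine ⟨C, fun c hc => ⟨(h1 c hc).2, (h1 c hc).1⟩, ?_⟩
    intro s t hst
    obtain ⟨c, hc, w, hw⟩ := h2 t s hst.symm
    exact ⟨c, hc, w, by rw [hst, hw]⟩

end Pool.Agent.R664.Ehr
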